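import Pool.Agent.FD.TestsBox

/-!
# Deciding whether a permanent vanishes: tests by sums of arbitrary functions of Pfaffians

Deciding whether the permanent of an integer matrix is `0` is complete for the class `C₌P`. We
consider algorithms which test polynomials `G₁, ..., G_N` of the input for zero or, if they are
real, for their sign; the number `N` of tests is not limited, so they may depend on the answers to
other ones and on random strings. Each `G_i` is a sum of `T` rational functions, each of them
algebraic over the ring generated by `k` Pfaffians of matrices of order at most `2 m` whose entries
are polynomials of degree at most `d` (for instance an arbitrary polynomial in `k` determinants of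
order at most `m`), or a specialisation of such sums. If `T` is less than the exponential of the
bound, `result` gives an integer matrix `X` with `perm X = 0` such that the tests see nothing in a
large box around `X`, where the permanent takes large values of both signs. In particular no nonzero
multiple of the permanent is such a sum.

Proof. (`Helper97/HY/Box`, `FD/TestsBox`) It is enough that the permanent divides no leading form of
a `G_i`, and these are specialisations of such sums as well (`FD/TopForm`). Let `G = perm * Q`,
`Q ≠ 0`, be such a specialisation; consider the derivatives of `G` of order `D`, one variable in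
each of `D` blocks, at the point `x₀ + φ₀ (Y)`, where `φ₀ (Y)` is a matrix with `D` blocks depending
on parameters `Y`.

1. (`ZTS/Psi`, `ZTS/LemM`, `ZTS/Low`, `FD/LowMult`) At generic `x₀` these derivatives have almost as
many independent multiples as the ones of the permanent at `x₀ = 0`, whatever `Q` is.
2. (`FD/Closure`, `FD/GenFun`, `FD/DegFilt`) The derivatives of an algebraic function of
`det A₁, ..., det A_k` of order `D` are combinations of products `c_γ det A ^ γ (A⁻¹)_{e}`, where
`(A⁻¹)_{e}` is a product of `D` entries of the `A_i⁻¹` and `c_γ` a partial derivative of the
function, `|γ| ≤ D`: the class of these products is closed under derivation. Their number does not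
depend on the degree or on the complexity of the function.
3. (`FD/Lower`, `FD/CountTyp`, `FD/DegMain`, `Helper91/HN/Num6c`) Products of cofactors satisfy
quadratic relations, which leave few independent multiples of weight `q ^ degree`.
-/

set_option autoImplicit false

namespace Pool.Agent.Results.MP_381749_lc.FunctionTests

open MvPolynomial Pool.FT

/-- Let `log (2 T)` be less than `c` times the bound. For any number of nonzero polynomials
`G₁, ..., G_N` which are sums of `T` functions of `k` Pfaffians, or specialisations of such sums,
and any `R` there is an integer matrix `X` with `perm X = 0` such that no `G_i` vanishes at a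
complex `Y` with `|Y_ab - X_ab| ≤ R`, but a change of any entry of `X` by `1` or `-1` gives the
permanents `M` and `-M`, where `|M| ≥ R`. -/
theorem result : ∃ c : ℝ, 0 < c ∧ ∀ n m k d T N : ℕ, 2 ≤ n → 1 ≤ m → 1 ≤ k → 1 ≤ d →
      Real.log (2 * T) < c * bound n m k d →
    ∀ G : Fin N → MvPolynomial (Fin n × Fin n) ℂ, (∀ i, G i ≠ 0 ∧ SumOf m k d T (G i)) →
    ∀ R : ℕ, ∃ X : Matrix (Fin n) (Fin n) ℤ, X.permanent = 0 ∧
      (∀ a b, (R : ℤ) ≤ |(X + Matrix.single a b 1).permanent| ∧
        (X - Matrix.single a b 1).permanent = -(X + Matrix.single a b 1).permanent) ∧
      ∀ Y : Matrix (Fin n) (Fin n) ℂ, (∀ a b, ‖Y a b - X a b‖ ≤ R) →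
        ∀ i, eval (fun p => Y p.1 p.2) (G i) ≠ 0 :=
  Pool.FT.box

end Pool.Agent.Results.MP_381749_lc.FunctionTests
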